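import Mathlib

-- merged part: Pool.Agent.Work.MP_c2f093_al.Trace
section
/-!
Trace of a product of matrices as a sum over closed walks, and Dedekind comparison of
sums of characters.
-/

namespace Pool.Agent.Work.MP_c2f093_al

open Finset Matrix

section paths
variable {n R : Type*} [Fintype n] [DecidableEq n] [CommRing R]

lemma ofFn_prod_apply (m : ℕ) (N : Fin m → Matrix n n R) (x y : n) :
    (List.ofFn N).prod x y =
      ∑ s : Fin m → n, if (Fin.cons x s : Fin (m+1) → n) (Fin.last m) = y then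
        ∏ j : Fin m, N j ((Fin.cons x s : Fin (m+1) → n) j.castSucc) (s j) else 0 := by
  induction m generalizing x with
  | zero => simp [Matrix.one_apply]
  | succ m ih =>
    rw [List.ofFn_succ, List.prod_cons, Matrix.mul_apply]
    rw [← (Fin.consEquiv (fun _ : Fin (m+1) => n)).sum_comp, Fintype.sum_prod_type]
    refine Finset.sum_congr rfl fun z _ => ?_
    rw [ih, Finset.mul_sum]
    refine Finset.sum_congr rfl fun s _ => ?_
    have h1 : (Fin.cons x (Fin.consEquiv (fun _ : Fin (m+1) => n) (z, s)) : Fin (m+2) → n)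
        (Fin.last (m+1)) = (Fin.cons z s : Fin (m+1) → n) (Fin.last m) := by
      rw [← Fin.succ_last, Fin.cons_succ]; rfl
    rw [h1]
    split_ifs with h
    · rw [Fin.prod_univ_succ]
      congr 1
    · simp

lemma trace_ofFn_prod (m : ℕ) (N : Fin (m+1) → Matrix n n R) :
    (List.ofFn N).prod.trace = ∑ s : Fin (m+1) → n, ∏ j, N j (s j) (s (j+1)) := by
  unfold Matrix.trace
  simp only [Matrix.diag_apply, ofFn_prod_apply]
  rw [Finset.sum_comm]
  rw [← (Equiv.arrowCongr (Equiv.addRight (1 : Fin (m+1))).symm (Equiv.refl n)).sum_comp]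
  refine Finset.sum_congr rfl fun s _ => ?_
  set s' : Fin (m+1) → n := (Equiv.arrowCongr (Equiv.addRight (1 : Fin (m+1))).symm (Equiv.refl n)) s
    with hs'
  have hs : ∀ j, s' j = s (j+1) := by intro j; simp [hs']
  have hl : ∀ x, (Fin.cons x s' : Fin (m+2) → n) (Fin.last (m+1)) = s 0 := by
    intro x
    rw [← Fin.succ_last, Fin.cons_succ, hs, Fin.last_add_one]
  simp only [hl]
  rw [Finset.sum_ite_eq]
  simp only [Finset.mem_univ, if_true]
  refine Finset.prod_congr rfl fun j _ => ?_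
  rw [hs]
  congr 1
  refine Fin.cases ?_ (fun i => ?_) j
  · simp
  · rw [← Fin.succ_castSucc, Fin.cons_succ, hs, Fin.coeSucc_eq_succ]

lemma trace_range_prod (k : ℕ) [NeZero k] (N : ZMod k → Matrix n n R) :
    ((List.range k).map fun j : ℕ => N (j : ZMod k)).prod.trace
      = ∑ s : ZMod k → n, ∏ j, N j (s j) (s (j+1)) := by
  obtain ⟨m, rfl⟩ : ∃ m, k = m + 1 := Nat.exists_eq_succ_of_ne_zero (NeZero.ne k)
  have h := trace_ofFn_prod m (n := n) (R := R) N
  have h2 : (List.range (m+1)).map (fun j : ℕ => N (j : ZMod (m+1))) = List.ofFn (n := m+1) N := by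
    apply List.ext_getElem
    · simp
    · intro i h1 h2
      simp only [List.getElem_map, List.getElem_range, List.getElem_ofFn]
      congr 1
      have hi : i < m + 1 := by simpa using h1
      apply Fin.ext
      change ((i : ZMod (m+1))).val = i
      exact ZMod.val_cast_of_lt hi
  rw [h2]
  exact h

end paths

section dedekind

lemma card_eq_of_sum_eq {T ι κ : Type*} [Monoid T] [Fintype ι] [Fintype κ]
    [DecidableEq (T →* ℂ)]
    (f : ι → (T →* ℂ)) (g : κ → (T →* ℂ))
    (h : ∀ t, ∑ i, f i t = ∑ j, g j t) (χ : T →* ℂ) :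
    (univ.filter fun i => f i = χ).card = (univ.filter fun j => g j = χ).card := by
  have li := linearIndependent_monoidHom T ℂ
  rw [linearIndependent_iff] at li
  have h0 := li (∑ i, Finsupp.single (f i) (1 : ℂ) - ∑ j, Finsupp.single (g j) (1 : ℂ)) (by
    rw [map_sub, map_sum, map_sum]
    ext t
    simp [Finset.sum_apply, h t])
  have h1 := congrArg (fun c : (T →* ℂ) →₀ ℂ => c χ) h0
  simp only [Finsupp.coe_sub, Pi.sub_apply, Finsupp.finsetSum_apply, Finsupp.single_apply,
    Finsupp.coe_zero, Pi.zero_apply, Finset.sum_boole, sub_eq_zero] at h1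
  exact_mod_cast h1

lemma exists_eq_of_sum_eq {T ι κ : Type*} [Monoid T] [Fintype ι] [Fintype κ]
    (f : ι → (T →* ℂ)) (g : κ → (T →* ℂ))
    (h : ∀ t, ∑ i, f i t = ∑ j, g j t) (i : ι) : ∃ j, g j = f i := by
  classical
  have h1 := card_eq_of_sum_eq f g h (f i)
  have h2 : 0 < (univ.filter fun j => g j = f i).card := by
    rw [← h1]
    exact Finset.card_pos.2 ⟨i, by simp⟩
  obtain ⟨j, hj⟩ := Finset.card_pos.1 h2
  exact ⟨j, by simpa using hj⟩

end dedekind

end Pool.Agent.Work.MP_c2f093_al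
end

-- merged part: Pool.Agent.Work.MP_c2f093_al.Reduce
section
/-!
Reductions: from SL3 to GL3 trace equivalence, and absence of the inverse letter.
-/

namespace Pool.Agent.Work.MP_c2f093_al

open Finset Matrix

abbrev F2 := FreeGroup (Fin 2)
abbrev M3 := Matrix (Fin 3) (Fin 3) ℂ

/-- equality of traces in all three-dimensional representations -/
def TE (u v : F2) : Prop := ∀ ρ : F2 →* M3, (ρ u).trace = (ρ v).trace

lemma TE.symm {u v : F2} (h : TE u v) : TE v u := fun ρ => (h ρ).symm

lemma TE.trans {u v w : F2} (h : TE u v) (h' : TE v w) : TE u w := fun ρ => (h ρ).trans (h' ρ)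

lemma TE.of_isConj {u v : F2} (h : IsConj u v) : TE u v := by
  obtain ⟨c, rfl⟩ := isConj_iff.1 h
  intro ρ
  rw [map_mul, map_mul, Matrix.trace_mul_cycle, ← map_mul, inv_mul_cancel, map_one, one_mul]

lemma TE.map {u v : F2} (h : TE u v) (φ : F2 →* F2) : TE (φ u) (φ v) := fun ρ => h (ρ.comp φ)

/-- diagonal element of SL3 -/
noncomputable def dSL (x : ℂˣ) : SpecialLinearGroup (Fin 3) ℂ :=
  ⟨Matrix.diagonal ![(x:ℂ), x, ((x⁻¹ : ℂˣ) : ℂ)^2], by
    rw [Matrix.det_diagonal, Fin.prod_univ_three]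
    simp only [Matrix.cons_val_zero, Matrix.cons_val_one, Matrix.cons_val, Units.val_inv_eq_inv_val]
    field_simp⟩

noncomputable def dSLhom : ℂˣ →* SpecialLinearGroup (Fin 3) ℂ where
  toFun := dSL
  map_one' := by
    apply Subtype.ext
    ext i j
    fin_cases i <;> fin_cases j <;> simp [dSL]
  map_mul' x y := by
    apply Subtype.ext
    rw [Matrix.SpecialLinearGroup.coe_mul]
    simp only [dSL, Matrix.diagonal_mul_diagonal]
    congr 1
    ext i
    fin_cases i <;> simp
    ring

/-- the character of the torus given by a word -/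
noncomputable def abChar (w : F2) : (Fin 2 → ℂˣ) →* ℂˣ where
  toFun x := FreeGroup.lift x w
  map_one' := by
    have : FreeGroup.lift (1 : Fin 2 → ℂˣ) = 1 := by ext; simp
    rw [this]; rfl
  map_mul' x y := by
    have : FreeGroup.lift (x * y) = FreeGroup.lift x * FreeGroup.lift y := by ext; simp
    rw [this]; rfl

lemma ab_eq_of_sl {u v : F2}
    (h : ∀ A B : SpecialLinearGroup (Fin 3) ℂ,
      ((FreeGroup.lift ![A, B] u : SpecialLinearGroup (Fin 3) ℂ) : M3).trace =
      ((FreeGroup.lift ![A, B] v : SpecialLinearGroup (Fin 3) ℂ) : M3).trace)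
    (x : Fin 2 → ℂˣ) : FreeGroup.lift x u = FreeGroup.lift x v := by
  classical
  have h1 : ∀ (x : Fin 2 → ℂˣ) (w : F2),
      ((FreeGroup.lift ![dSL (x 0), dSL (x 1)] w : SpecialLinearGroup (Fin 3) ℂ) : M3).trace
        = (abChar w x : ℂ) + (abChar w x : ℂ) + (((abChar w x)⁻¹ : ℂˣ) : ℂ)^2 := by
    intro x w
    have : FreeGroup.lift ![dSL (x 0), dSL (x 1)] = dSLhom.comp (FreeGroup.lift x) := by
      ext1 i
      fin_cases i <;> simp [dSLhom]
    rw [this]
    simp [dSLhom, dSL, abChar, Matrix.trace, Fin.sum_univ_three]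
  let c : F2 → Fin 3 → ((Fin 2 → ℂˣ) →* ℂ) := fun w =>
    ![(Units.coeHom ℂ).comp (abChar w), (Units.coeHom ℂ).comp (abChar w),
      (Units.coeHom ℂ).comp ((abChar w)⁻¹ ^ 2)]
  have h2 : ∀ x, ∑ i, c u i x = ∑ i, c v i x := by
    intro x
    have := h (dSL (x 0)) (dSL (x 1))
    rw [h1, h1] at this
    simpa [c, Fin.sum_univ_three] using this
  have h3 := card_eq_of_sum_eq (c u) (c v) h2 (c u 0)
  by_contra hne
  have h4 : c v 0 ≠ c u 0 := by
    intro h5
    apply hne
    have := DFunLike.congr_fun h5 x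
    simp only [c, Matrix.cons_val_zero, MonoidHom.comp_apply, Units.coeHom_apply, abChar,
      MonoidHom.coe_mk, OneHom.coe_mk] at this
    exact (Units.ext this).symm
  have h6 : 2 ≤ (univ.filter fun i => c u i = c u 0).card := by
    have : ({0, 1} : Finset (Fin 3)) ⊆ univ.filter fun i => c u i = c u 0 := by
      intro i hi
      simp only [mem_insert, mem_singleton] at hi
      rcases hi with rfl | rfl <;> simp [c]
    exact Finset.card_le_card this
  have h7 : (univ.filter fun i => c v i = c u 0).card ≤ 1 := by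
    have : (univ.filter fun i => c v i = c u 0) ⊆ ({2} : Finset (Fin 3)) := by
      intro i hi
      simp only [mem_filter, mem_univ, true_and] at hi
      fin_cases i
      · exact absurd hi h4
      · exact absurd hi h4
      · simp
    exact Finset.card_le_card this
  omega

lemma te_of_sl {u v : F2}
    (h : ∀ A B : SpecialLinearGroup (Fin 3) ℂ,
      ((FreeGroup.lift ![A, B] u : SpecialLinearGroup (Fin 3) ℂ) : M3).trace =
      ((FreeGroup.lift ![A, B] v : SpecialLinearGroup (Fin 3) ℂ) : M3).trace) : TE u v := by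
  intro ρ
  have hdet : ∀ w, (ρ w).det ≠ 0 := by
    intro w h0
    have : (ρ w * ρ w⁻¹).det = 1 := by rw [← map_mul, mul_inv_cancel, map_one, Matrix.det_one]
    rw [Matrix.det_mul, h0, zero_mul] at this
    exact zero_ne_one this
  have hroot : ∀ i : Fin 2, ∃ z : ℂˣ, (z : ℂ)^3 = (ρ (FreeGroup.of i)).det := by
    intro i
    obtain ⟨z, hz⟩ := IsAlgClosed.exists_pow_nat_eq (ρ (FreeGroup.of i)).det (by norm_num : 0 < 3)
    have hz0 : z ≠ 0 := by
      rintro rfl
      exact hdet _ (by rw [← hz]; norm_num)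
    exact ⟨Units.mk0 z hz0, hz⟩
  choose z hz using hroot
  let S : Fin 2 → SpecialLinearGroup (Fin 3) ℂ := fun i =>
    ⟨((z i : ℂ))⁻¹ • ρ (FreeGroup.of i), by
      rw [Matrix.det_smul, ← hz i]
      simp⟩
  have hS : ![S 0, S 1] = S := by ext1 i; fin_cases i <;> rfl
  let ρ' : F2 →* M3 :=
    { toFun := fun w => ((FreeGroup.lift z w : ℂˣ) : ℂ) •
        ((FreeGroup.lift S w : SpecialLinearGroup (Fin 3) ℂ) : M3)
      map_one' := by simp
      map_mul' := by
        intro a b
        simp only [map_mul, Units.val_mul, Matrix.SpecialLinearGroup.coe_mul, Matrix.smul_mul,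
          Matrix.mul_smul, smul_smul]
        rw [mul_comm] }
  have hρ : ρ = ρ' := by
    ext1 i
    simp [ρ', S, smul_smul]
  have h1 := h (S 0) (S 1)
  rw [hS] at h1
  rw [hρ]
  simp only [ρ', MonoidHom.coe_mk, OneHom.coe_mk, Matrix.trace_smul]
  rw [h1, ab_eq_of_sl h z]

/-! ### the inverse letter -/

/-- column vectors of the limiting rank one matrices -/
def colv : Fin 2 × Bool → Fin 3 → ℂ
  | (0, true) => ![1, 0, 0]
  | (0, false) => ![0, 0, 1]
  | (1, true) => ![1, 0, 1]
  | (1, false) => ![1, 0, 2]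

/-- row vectors of the limiting rank one matrices -/
def rowv : Fin 2 × Bool → Fin 3 → ℂ
  | (0, true) => ![1, 0, 0]
  | (0, false) => ![0, 0, 1]
  | (1, true) => ![2, 0, -1]
  | (1, false) => ![-1, 0, 1]

lemma pair_ne (c d : Fin 2 × Bool) (h : c.1 = d.1 → c.2 = d.2) : rowv c ⬝ᵥ colv d ≠ 0 := by
  obtain ⟨c1, c2⟩ := c
  obtain ⟨d1, d2⟩ := d
  fin_cases c1 <;> fin_cases d1 <;> cases c2 <;> cases d2 <;>
    simp [rowv, colv, dotProduct, Fin.sum_univ_three] at h ⊢ <;> norm_num

lemma prod_rank_one (c : Fin 2 × Bool) (L : List (Fin 2 × Bool))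
    (h : FreeGroup.IsReduced (c :: L)) :
    ∃ z : ℂ, z ≠ 0 ∧ ((c :: L).map fun d => vecMulVec (colv d) (rowv d)).prod =
      z • vecMulVec (colv c) (rowv ((c :: L).getLast (by simp))) := by
  induction L generalizing c with
  | nil => exact ⟨1, one_ne_zero, by simp⟩
  | cons d L ih =>
    rw [FreeGroup.isReduced_cons_cons] at h
    obtain ⟨z, hz, e⟩ := ih d h.2
    refine ⟨z * (rowv c ⬝ᵥ colv d), mul_ne_zero hz (pair_ne c d h.1), ?_⟩
    rw [List.map_cons, List.prod_cons, e, Matrix.mul_smul, Matrix.vecMulVec_mul_vecMulVec,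
      List.getLast_cons (a := c) (l := d :: L) (by simp)]
    generalize rowv ((d :: L).getLast (by simp)) = w
    ext i j
    simp [vecMulVec_apply]
    ring

lemma trace_rank_one_ne (L : List (Fin 2 × Bool)) (h : FreeGroup.IsCyclicallyReduced L) :
    (L.map fun d => vecMulVec (colv d) (rowv d)).prod.trace ≠ 0 := by
  cases L with
  | nil => simp
  | cons c L =>
    obtain ⟨z, hz, e⟩ := prod_rank_one c L h.1
    rw [e, Matrix.trace_smul, Matrix.trace_vecMulVec, dotProduct_comm]
    refine mul_ne_zero hz (pair_ne _ _ ?_)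
    exact h.2 _ (List.getLast?_eq_some_getLast (by simp)) c (by simp)

/-- rescaled letter matrices -/
noncomputable def hat (β : ℕ) (t : ℂ) : Fin 2 × Bool → M3
  | (0, true) => Matrix.diagonal ![1, t, t^2]
  | (0, false) => Matrix.diagonal ![t^2, t, 1]
  | (1, true) => !![2 - (t^β)^2, 0, (t^β)^2 - 1; 0, t^β, 0; 2 - 2 * (t^β)^2, 0, 2 * (t^β)^2 - 1]
  | (1, false) => !![2 * (t^β)^2 - 1, 0, 1 - (t^β)^2; 0, t^β, 0; 2 * (t^β)^2 - 2, 0, 2 - (t^β)^2]

/-- weights of letters -/
def wt (β : ℕ) : Fin 2 × Bool → ℕ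
  | (0, true) => 0
  | (0, false) => 2
  | (1, true) => 0
  | (1, false) => 2 * β

lemma hat_zero (β : ℕ) (hβ : 0 < β) (c : Fin 2 × Bool) :
    hat β 0 c = vecMulVec (colv c) (rowv c) := by
  obtain ⟨c1, c2⟩ := c
  have : (0:ℂ)^β = 0 := zero_pow hβ.ne'
  fin_cases c1 <;> cases c2 <;> ext i j <;> fin_cases i <;> fin_cases j <;>
    simp [hat, colv, rowv, vecMulVec_apply, this]

lemma hat_cont (β : ℕ) (c : Fin 2 × Bool) : Continuous fun t => hat β t c := by
  obtain ⟨c1, c2⟩ := c
  fin_cases c1 <;> cases c2 <;> refine continuous_matrix fun i j => ?_ <;>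
    fin_cases i <;> fin_cases j <;> simp [hat] <;> fun_prop

lemma hat_mul (β : ℕ) (t : ℂ) (i : Fin 2) :
    hat β t (i, true) * hat β t (i, false) = (t ^ wt β (i, false)) • (1 : M3) := by
  fin_cases i <;> ext i j <;> fin_cases i <;> fin_cases j <;>
    simp [hat, wt, Matrix.mul_apply, Fin.sum_univ_three] <;> ring

lemma exists_rep (β : ℕ) (t : ℂ) (ht : t ≠ 0) : ∃ ρ : F2 →* M3, ∀ L : List (Fin 2 × Bool),
    (L.map (hat β t)).prod = (t ^ (L.map (wt β)).sum) • ρ (FreeGroup.mk L) := by
  have hu : ∀ i : Fin 2, hat β t (i, true) * ((t ^ wt β (i, false))⁻¹ • hat β t (i, false)) = 1 := by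
    intro i
    rw [Matrix.mul_smul, hat_mul, smul_smul, inv_mul_cancel₀ (pow_ne_zero _ ht), one_smul]
  let U : Fin 2 → M3ˣ := fun i =>
    ⟨hat β t (i, true), (t ^ wt β (i, false))⁻¹ • hat β t (i, false), hu i, mul_eq_one_comm.1 (hu i)⟩
  refine ⟨(Units.coeHom M3).comp (FreeGroup.lift U), fun L => ?_⟩
  induction L with
  | nil =>
    have : FreeGroup.mk ([] : List (Fin 2 × Bool)) = 1 := rfl
    simp [this]
  | cons c L ih =>
    have : FreeGroup.mk (c :: L) = FreeGroup.mk [c] * FreeGroup.mk L := by simp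
    have h1 : hat β t c = (t ^ wt β c) • ((Units.coeHom M3).comp (FreeGroup.lift U))
        (FreeGroup.mk [c]) := ?_
    · rw [this, map_mul, List.map_cons, List.prod_cons, ih, List.map_cons, List.sum_cons, pow_add,
        h1, Matrix.smul_mul, Matrix.mul_smul, smul_smul]
    obtain ⟨c1, c2⟩ := c
    cases c2
    · simp only [MonoidHom.comp_apply, FreeGroup.lift_mk, List.map_cons, List.map_nil,
        List.prod_cons, List.prod_nil, mul_one, cond_false, Units.coeHom_apply, U, Units.inv_mk,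
        smul_smul]
      rw [mul_inv_cancel₀ (pow_ne_zero _ ht), one_smul]
    · have : wt β (c1, true) = 0 := by fin_cases c1 <;> rfl
      simp [U, this]

lemma wt_le (β : ℕ) (L : List (Fin 2 × Bool)) (h : ((1 : Fin 2), false) ∉ L) :
    (L.map (wt β)).sum ≤ 2 * L.length := by
  induction L with
  | nil => simp
  | cons c L ih =>
    simp only [List.mem_cons, not_or] at h
    have := ih h.2
    have h2 : wt β c ≤ 2 := by
      obtain ⟨c1, c2⟩ := c
      fin_cases c1 <;> cases c2 <;> simp_all [wt]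
    simp only [List.map_cons, List.sum_cons, List.length_cons]
    omega

lemma no_inv_letter (Lu Lv : List (Fin 2 × Bool)) (hu : ((1 : Fin 2), false) ∉ Lu)
    (hv : FreeGroup.IsCyclicallyReduced Lv) (h : TE (FreeGroup.mk Lu) (FreeGroup.mk Lv)) :
    ((1 : Fin 2), false) ∉ Lv := by
  intro hm
  set β := Lu.length + 1 with hβ
  have h1 := wt_le β Lu hu
  have h2 : 2 * β ≤ (Lv.map (wt β)).sum :=
    List.single_le_sum (by simp) _ (List.mem_map.2 ⟨_, hm, rfl⟩)
  obtain ⟨d, hd⟩ : ∃ d, (Lv.map (wt β)).sum = (Lu.map (wt β)).sum + (d + 1) :=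
    ⟨(Lv.map (wt β)).sum - (Lu.map (wt β)).sum - 1, by omega⟩
  have cont : ∀ L : List (Fin 2 × Bool), Continuous fun t => (L.map (hat β t)).prod.trace := by
    intro L
    apply Continuous.matrix_trace
    exact continuous_list_prod L (fun c _ => hat_cont β c)
  have e : (fun t => (Lv.map (hat β t)).prod.trace)
      = fun t => t ^ (d+1) * (Lu.map (hat β t)).prod.trace := by
    refine Continuous.ext_on (dense_compl_singleton (0:ℂ)) (cont Lv)
      ((continuous_pow _).mul (cont Lu)) ?_
    intro t ht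
    obtain ⟨ρ, hρ⟩ := exists_rep β t ht
    simp only [hρ, Matrix.trace_smul, smul_eq_mul, hd, pow_add, h ρ]
    ring
  have e0 := congrFun e 0
  simp only [ne_eq, Nat.add_eq_zero_iff, one_ne_zero, and_false, not_false_eq_true, zero_pow,
    zero_mul] at e0
  have : hat β 0 = fun d => vecMulVec (colv d) (rowv d) := funext (hat_zero β (by omega))
  rw [this] at e0
  exact trace_rank_one_ne Lv hv e0

end Pool.Agent.Work.MP_c2f093_al
end
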