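import Mathlib
import Pool.Agent.Work.MP_c2f093_al.Reduce

-- merged part: Pool.Agent.Work.MP_c2f093_al.Comb
section
/-!
Combinatorial core: cyclic integer sequences are recovered from the contents of three-state
closed walks when some window sum is attained only at rotations that preserve the sequence.
-/

set_option linter.unusedSectionVars false

namespace Pool.Agent.Work.MP_c2f093_al

open Finset

/-- sum of the cyclic window of length `l` starting at `i` -/
def win {k : ℕ} (e : ZMod k → ℤ) (i : ZMod k) (l : ℕ) : ℤ := ∑ t ∈ range l, e (i + t)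

/-- two closed walks have the same content -/
def Same {k k' : ℕ} [NeZero k] [NeZero k'] (e : ZMod k → ℤ) (s : ZMod k → Fin 3)
    (e' : ZMod k' → ℤ) (s' : ZMod k' → Fin 3) : Prop :=
  ∀ (g : Fin 3 → ℤ) (h : Fin 3 → Fin 3 → ℤ),
    ∑ j, (e j * g (s j) + h (s j) (s (j+1))) = ∑ j, (e' j * g (s' j) + h (s' j) (s' (j+1)))

section
variable {k : ℕ} [NeZero k]

lemma sum_range_cast {H : Type*} [AddCommMonoid H] (f : ZMod k → H) :
    ∑ t ∈ range k, f (t : ZMod k) = ∑ j, f j := by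
  refine Finset.sum_bij (fun t _ => (t : ZMod k)) (fun _ _ => mem_univ _) ?_ ?_ (fun _ _ => rfl)
  · intro a ha b hb hab
    have := congrArg ZMod.val hab
    rwa [ZMod.val_cast_of_lt (mem_range.1 ha), ZMod.val_cast_of_lt (mem_range.1 hb)] at this
  · intro b _
    exact ⟨b.val, mem_range.2 (ZMod.val_lt b), ZMod.natCast_zmod_val b⟩

lemma win_succ (e : ZMod k → ℤ) (i : ZMod k) (l : ℕ) :
    win e i (l+1) = win e i l + e (i + l) := by
  simp [win, Finset.sum_range_succ]

lemma win_add (e : ZMod k → ℤ) (i : ZMod k) (l m : ℕ) :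
    win e i (l+m) = win e i l + win e (i + l) m := by
  induction m with
  | zero => simp [win]
  | succ m ih =>
    rw [← add_assoc, win_succ, win_succ, ih]
    push_cast
    rw [add_assoc i]
    ring

lemma win_full (e : ZMod k → ℤ) (i : ZMod k) : win e i k = ∑ j, e j := by
  unfold win
  rw [sum_range_cast (fun t => e (i + t))]
  exact Equiv.sum_comp (Equiv.addLeft i) e

lemma win_mod (e : ZMod k → ℤ) (i : ZMod k) (l : ℕ) :
    win e i l = win e i (l % k) + (l / k : ℕ) * ∑ j, e j := by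
  have : ∀ q r : ℕ, win e i (r + k * q) = win e i r + q * ∑ j, e j := by
    intro q r
    induction q with
    | zero => simp
    | succ q ih =>
      rw [Nat.mul_succ, ← add_assoc, win_add, ih, win_full]
      push_cast; ring
  conv_lhs => rw [← Nat.mod_add_div l k]
  exact this _ _

/-- periodic potential -/
def pot (e : ZMod k → ℤ) (i : ZMod k) : ℤ := k * win e 0 i.val - (∑ j, e j) * i.val

lemma pot_cast (e : ZMod k → ℤ) (n : ℕ) :
    pot e (n : ZMod k) = k * win e 0 n - (∑ j, e j) * n := by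
  unfold pot
  rw [ZMod.val_natCast, win_mod e 0 n]
  have h : (n : ℤ) = (n % k : ℕ) + k * (n / k : ℕ) := by exact_mod_cast (Nat.mod_add_div n k).symm
  rw [h]
  have h2 : (((n % k : ℕ) + k * (n / k : ℕ) : ℤ)) = n := h.symm
  ring

lemma pot_win (e : ZMod k → ℤ) (i : ZMod k) (l : ℕ) :
    pot e (i + l) - pot e i = k * win e i l - (∑ j, e j) * l := by
  obtain ⟨n, rfl⟩ : ∃ n : ℕ, (n : ZMod k) = i := ⟨i.val, ZMod.natCast_zmod_val i⟩
  rw [← Nat.cast_add, pot_cast, pot_cast, win_add]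
  push_cast
  simp only [zero_add]
  ring

lemma pot_step (e : ZMod k → ℤ) (i : ZMod k) :
    pot e (i + 1) - pot e i = k * e i - ∑ j, e j := by
  have := pot_win e i 1
  simpa [win] using this

lemma abel_sum {H : Type*} [AddCommGroup H] (q : ZMod k → Prop) [DecidablePred q] (α β : ZMod k)
    (hα : ∀ j, (¬ q j ∧ q (j+1)) ↔ j = α) (hβ : ∀ j, (q j ∧ ¬ q (j+1)) ↔ j = β)
    (f : ZMod k → H) :
    ∑ j, (if q j then f (j+1) - f j else 0) = f (β+1) - f (α+1) := by
  have h1 : ∑ j, (if q j then f j else 0) = ∑ j, (if q (j+1) then f (j+1) else 0) :=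
    (Equiv.sum_comp (Equiv.addRight (1 : ZMod k)) (fun j => if q j then f j else 0)).symm
  have h2 : ∑ j, (if q j then f (j+1) - f j else 0)
      = ∑ j, (if q j then f (j+1) else 0) - ∑ j, (if q j then f j else 0) := by
    rw [← Finset.sum_sub_distrib]
    refine Finset.sum_congr rfl fun j _ => ?_
    split_ifs <;> simp
  rw [h2, h1, ← Finset.sum_sub_distrib]
  have h3 : ∀ j, ((if q j then f (j+1) else 0) - (if q (j+1) then f (j+1) else 0))
      = (if j = β then f (j+1) else 0) - (if j = α then f (j+1) else 0) := by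
    intro j
    simp only [← hα j, ← hβ j]
    by_cases c1 : q j <;> by_cases c2 : q (j+1) <;> simp [c1, c2]
  simp only [h3, Finset.sum_sub_distrib, Finset.sum_ite_eq', mem_univ, if_true]

lemma window_of_unique (e : ZMod k → ℤ) (q : ZMod k → Prop) [DecidablePred q] (α β : ZMod k)
    (hα : ∀ j, (¬ q j ∧ q (j+1)) ↔ j = α) (hβ : ∀ j, (q j ∧ ¬ q (j+1)) ↔ j = β) (L : ℕ)
    (hL : ∑ j, (if q j then (1:ℤ) else 0) = L) :
    β + 1 = α + 1 + L ∧ ∑ j, (if q j then e j else 0) = win e (α+1) L := by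
  have h1 := abel_sum q α β hα hβ (fun j => j)
  have h1' : β + 1 = α + 1 + L := by
    have h3 : ∑ j, (if q j then j + 1 - j else 0 : ZMod k) = (L : ZMod k) := by
      have := congrArg (Int.cast : ℤ → ZMod k) hL
      push_cast at this
      rw [← this]
      refine Finset.sum_congr rfl fun j _ => ?_
      split_ifs <;> simp
    rw [h3] at h1
    rw [h1]; ring
  refine ⟨h1', ?_⟩
  have h2 := abel_sum q α β hα hβ (pot e)
  rw [h1', pot_win] at h2
  have h4 : ∑ j, (if q j then pot e (j+1) - pot e j else 0)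
      = k * ∑ j, (if q j then e j else 0) - (∑ j, e j) * ∑ j, (if q j then (1:ℤ) else 0) := by
    rw [Finset.mul_sum, Finset.mul_sum, ← Finset.sum_sub_distrib]
    refine Finset.sum_congr rfl fun j _ => ?_
    split_ifs
    · rw [pot_step]; ring
    · simp
  rw [h4, hL] at h2
  have hk : (k : ℤ) ≠ 0 := by exact_mod_cast NeZero.ne k
  exact mul_left_cancel₀ hk (by linarith)

lemma unique_of_sum_eq_one (r : ZMod k → Prop) [DecidablePred r]
    (h : ∑ j, (if r j then (1:ℤ) else 0) = 1) : ∃ α, ∀ j, r j ↔ j = α := by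
  rw [Finset.sum_boole] at h
  have h2 : (univ.filter r).card = 1 := by exact_mod_cast h
  obtain ⟨α, hα⟩ := Finset.card_eq_one.1 h2
  refine ⟨α, fun j => ?_⟩
  have : j ∈ univ.filter r ↔ j ∈ ({α} : Finset (ZMod k)) := by rw [hα]
  simpa using this

lemma sum_eq_one_of_unique (r : ZMod k → Prop) [DecidablePred r] (α : ZMod k)
    (h : ∀ j, r j ↔ j = α) : ∑ j, (if r j then (1:ℤ) else 0) = 1 := by
  simp only [h, Finset.sum_ite_eq', mem_univ, if_true]

/-- Transfer of a run: if state `σ` has a unique entry and a unique exit in `s`, the same holds in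
any walk with the same content, with the same window data. -/
lemma transfer {e e' : ZMod k → ℤ} {s s' : ZMod k → Fin 3} (hs : Same e s e' s') (σ : Fin 3)
    (α β : ZMod k) (hα : ∀ j, (¬ s j = σ ∧ s (j+1) = σ) ↔ j = α)
    (hβ : ∀ j, (s j = σ ∧ ¬ s (j+1) = σ) ↔ j = β) (L : ℕ)
    (hL : ∑ j, (if s j = σ then (1:ℤ) else 0) = L) :
    ∃ α' β' : ZMod k, (∀ j, (¬ s' j = σ ∧ s' (j+1) = σ) ↔ j = α') ∧
      (∀ j, (s' j = σ ∧ ¬ s' (j+1) = σ) ↔ j = β') ∧ β' + 1 = α' + 1 + L ∧
      win e' (α'+1) L = win e (α+1) L := by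
  have a1 := hs (fun _ => 0) (fun x y => if ¬ x = σ ∧ y = σ then 1 else 0)
  have a2 := hs (fun _ => 0) (fun x y => if x = σ ∧ ¬ y = σ then 1 else 0)
  have a3 := hs (fun _ => 0) (fun x _ => if x = σ then 1 else 0)
  have a4 := hs (fun x => if x = σ then 1 else 0) (fun _ _ => 0)
  simp only [mul_zero, zero_add, add_zero, mul_ite, mul_one] at a1 a2 a3 a4
  rw [sum_eq_one_of_unique _ α hα] at a1
  rw [sum_eq_one_of_unique _ β hβ] at a2
  obtain ⟨α', hα'⟩ := unique_of_sum_eq_one _ a1.symm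
  obtain ⟨β', hβ'⟩ := unique_of_sum_eq_one _ a2.symm
  have w1 := window_of_unique e (fun j => s j = σ) α β hα hβ L hL
  have w2 := window_of_unique e' (fun j => s' j = σ) α' β' hα' hβ' L (a3 ▸ hL)
  exact ⟨α', β', hα', hβ', w2.1, by rw [← w1.2, ← w2.2, a4]⟩

lemma val_add_one (j : ZMod k) : (j + 1).val = if j.val + 1 = k then 0 else j.val + 1 := by
  have hj := ZMod.val_lt j
  have h : j + 1 = ((j.val + 1 : ℕ) : ZMod k) := by push_cast; rw [ZMod.natCast_zmod_val]
  rw [h, ZMod.val_natCast]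
  split_ifs with h1
  · rw [h1, Nat.mod_self]
  · exact Nat.mod_eq_of_lt (by omega)

/-- the walk with state 1 on `[i, i+m₁)`, state 2 on `[i+m₁, i+m₂)`, state 0 elsewhere -/
def arcs (i : ZMod k) (m₁ m₂ : ℕ) (j : ZMod k) : Fin 3 :=
  if (j - i).val < m₁ then 1 else if (j - i).val < m₂ then 2 else 0

lemma eq_iff_val (i j : ZMod k) (m : ℕ) (hm : m < k) : j = i + m ↔ (j - i).val = m := by
  constructor
  · rintro rfl
    simp [ZMod.val_cast_of_lt hm]
  · intro h
    rw [← h, ZMod.natCast_zmod_val]; ring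

lemma count_interval (i : ZMod k) (a b : ℕ) (hab : a ≤ b) (hb : b ≤ k) :
    ∑ j : ZMod k, (if a ≤ (j - i).val ∧ (j - i).val < b then (1:ℤ) else 0) = ((b - a : ℕ) : ℤ) := by
  rw [← Equiv.sum_comp (Equiv.addRight i), ← sum_range_cast]
  simp only [Equiv.coe_addRight, add_sub_cancel_right]
  rw [Finset.sum_congr rfl (g := fun t => if a ≤ t ∧ t < b then (1:ℤ) else 0)]
  · rw [Finset.sum_boole]
    have : (range k).filter (fun t => a ≤ t ∧ t < b) = Finset.Ico a b := by
      ext t; simp; omega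
    rw [this]; simp
  · intro t ht
    rw [ZMod.val_cast_of_lt (mem_range.1 ht)]

lemma arcs_one (i : ZMod k) (m₁ m₂ : ℕ) (h0 : 0 < m₁) (h1 : m₁ ≤ m₂) (h2 : m₂ < k) :
    (∀ j, (¬ arcs i m₁ m₂ j = 1 ∧ arcs i m₁ m₂ (j+1) = 1) ↔ j = i + (k-1 : ℕ)) ∧
    (∀ j, (arcs i m₁ m₂ j = 1 ∧ ¬ arcs i m₁ m₂ (j+1) = 1) ↔ j = i + (m₁-1 : ℕ)) ∧
    ∑ j, (if arcs i m₁ m₂ j = 1 then (1:ℤ) else 0) = (m₁ : ℕ) := by
  have hv : ∀ j : ZMod k, (j + 1 - i).val = if (j - i).val + 1 = k then 0 else (j - i).val + 1 := by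
    intro j; rw [← val_add_one]; congr 1; ring
  have hone : ∀ j, arcs i m₁ m₂ j = 1 ↔ (j - i).val < m₁ := by
    intro j; unfold arcs; split_ifs <;> simp_all
  refine ⟨fun j => ?_, fun j => ?_, ?_⟩
  · rw [hone, hone, hv, eq_iff_val i j _ (by omega)]
    have := ZMod.val_lt (j - i)
    split_ifs <;> omega
  · rw [hone, hone, hv, eq_iff_val i j _ (by omega)]
    have := ZMod.val_lt (j - i)
    split_ifs <;> omega
  · have := count_interval i 0 m₁ (by omega) (by omega)
    simpa [hone] using this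

lemma arcs_two (i : ZMod k) (m₁ m₂ : ℕ) (h0 : 0 < m₁) (h1 : m₁ < m₂) (h2 : m₂ < k) :
    (∀ j, (¬ arcs i m₁ m₂ j = 2 ∧ arcs i m₁ m₂ (j+1) = 2) ↔ j = i + (m₁-1 : ℕ)) ∧
    (∀ j, (arcs i m₁ m₂ j = 2 ∧ ¬ arcs i m₁ m₂ (j+1) = 2) ↔ j = i + (m₂-1 : ℕ)) ∧
    ∑ j, (if arcs i m₁ m₂ j = 2 then (1:ℤ) else 0) = (m₂ - m₁ : ℕ) := by
  have hv : ∀ j : ZMod k, (j + 1 - i).val = if (j - i).val + 1 = k then 0 else (j - i).val + 1 := by
    intro j; rw [← val_add_one]; congr 1; ring
  have htwo : ∀ j, arcs i m₁ m₂ j = 2 ↔ m₁ ≤ (j - i).val ∧ (j - i).val < m₂ := by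
    intro j; unfold arcs; split_ifs <;> simp_all
  refine ⟨fun j => ?_, fun j => ?_, ?_⟩
  · rw [htwo, htwo, hv, eq_iff_val i j _ (by omega)]
    have := ZMod.val_lt (j - i)
    split_ifs <;> omega
  · rw [htwo, htwo, hv, eq_iff_val i j _ (by omega)]
    have := ZMod.val_lt (j - i)
    split_ifs <;> omega
  · have := count_interval i m₁ m₂ (by omega) (by omega)
    simpa [htwo] using this

lemma cast_pred_add_one (m : ℕ) (h : 0 < m) : ((m - 1 : ℕ) : ZMod k) + 1 = m := by
  obtain ⟨n, rfl⟩ : ∃ n, m = n + 1 := ⟨m - 1, by omega⟩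
  simp

/-- one window can be transported -/
lemma one_window {e e' : ZMod k → ℤ} (h : ∀ s, ∃ s', Same e s e' s') (i : ZMod k) (m : ℕ)
    (h0 : 0 < m) (h2 : m < k) : ∃ i', win e' i' m = win e i m := by
  obtain ⟨s', hs'⟩ := h (arcs i m m)
  obtain ⟨b1, b2, b3⟩ := arcs_one i m m h0 le_rfl h2
  obtain ⟨α', β', -, -, -, c⟩ := transfer hs' 1 _ _ b1 b2 m b3
  refine ⟨α' + 1, ?_⟩
  rw [c, add_assoc, cast_pred_add_one _ (by omega)]
  simp

/-- two windows with a common start can be transported -/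
lemma two_windows {e e' : ZMod k → ℤ} (h : ∀ s, ∃ s', Same e s e' s') (i : ZMod k) (m₁ m₂ : ℕ)
    (h0 : 0 < m₁) (h1 : m₁ < m₂) (h2 : m₂ < k) :
    ∃ i', win e' i' m₁ = win e i m₁ ∧ win e' i' m₂ = win e i m₂ := by
  obtain ⟨s', hs'⟩ := h (arcs i m₁ m₂)
  obtain ⟨b1, b2, b3⟩ := arcs_one i m₁ m₂ h0 h1.le h2
  obtain ⟨c1, c2, c3⟩ := arcs_two i m₁ m₂ h0 h1 h2
  obtain ⟨α', β', -, d2, d3, d4⟩ := transfer hs' 1 _ _ b1 b2 m₁ b3
  obtain ⟨α'', β'', f1, -, -, f4⟩ := transfer hs' 2 _ _ c1 c2 (m₂ - m₁) c3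
  have a1 := hs' (fun _ => 0) (fun x y => if x = 1 ∧ y = 2 then 1 else 0)
  simp only [mul_zero, zero_add] at a1
  have a2 : ∀ j, (arcs i m₁ m₂ j = 1 ∧ arcs i m₁ m₂ (j+1) = 2) ↔ j = i + (m₁-1 : ℕ) := by
    intro j
    constructor
    · rintro ⟨x, y⟩
      exact (b2 j).1 ⟨x, by rw [y]; decide⟩
    · intro x
      exact ⟨((b2 j).2 x).1, ((c1 j).2 x).2⟩
  rw [sum_eq_one_of_unique _ _ a2] at a1
  obtain ⟨γ, hγ⟩ := unique_of_sum_eq_one _ a1.symm
  have g0 := (hγ γ).2 rfl
  have g1 : γ = β' := (d2 γ).1 ⟨g0.1, by rw [g0.2]; decide⟩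
  have g2 : γ = α'' := (f1 γ).1 ⟨by rw [g0.1]; decide, g0.2⟩
  have e1 : i + ((k - 1 : ℕ) : ZMod k) + 1 = i := by
    rw [add_assoc, cast_pred_add_one _ (by omega)]; simp
  have e2 : i + ((m₁ - 1 : ℕ) : ZMod k) + 1 = i + m₁ := by
    rw [add_assoc, cast_pred_add_one _ (by omega)]
  rw [e1] at d4
  rw [e2, ← g2, g1, d3] at f4
  refine ⟨α' + 1, d4, ?_⟩
  have e3 : m₂ = m₁ + (m₂ - m₁) := by omega
  rw [e3, win_add, win_add, d4, f4]

lemma total_eq {e e' : ZMod k → ℤ} (h : ∀ s, ∃ s', Same e s e' s') : ∑ j, e j = ∑ j, e' j := by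
  obtain ⟨s', hs'⟩ := h (fun _ => 0)
  simpa using hs' (fun _ => 1) (fun _ _ => 0)

theorem rotation_of_same {e e' : ZMod k → ℤ} (h : ∀ s, ∃ s', Same e s e' s')
    (h' : ∀ s', ∃ s, Same e' s' e s) (i₀ : ZMod k) (l₀ : ℕ)
    (H : ∀ i, win e i l₀ = win e i₀ l₀ → ∀ t, e (i + t) = e (i₀ + t)) :
    ∃ i', ∀ t, e' (i' + t) = e (i₀ + t) := by
  have hk : 0 < k := Nat.pos_of_ne_zero (NeZero.ne k)
  set l := l₀ % k with hl
  have hlk : l < k := Nat.mod_lt _ hk
  have H1 : ∀ i, win e i l = win e i₀ l → ∀ t, e (i + t) = e (i₀ + t) := by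
    intro i hi
    apply H
    rw [win_mod e i, win_mod e i₀, ← hl, hi]
  have H2 : ∀ i, win e i l = win e i₀ l → ∀ n, win e i n = win e i₀ n := by
    intro i hi n
    exact Finset.sum_congr rfl fun t _ => H1 i hi t
  have key : ∃ i', ∀ n ≤ k, win e' i' n = win e i₀ n := by
    rcases Nat.eq_zero_or_pos l with h0 | h0
    · refine ⟨0, fun n hn => ?_⟩
      rcases Nat.eq_zero_or_pos n with n0 | n0
      · simp [n0, win]
      rcases hn.eq_or_lt with nk | nk
      · rw [nk, win_full, win_full, total_eq h]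
      obtain ⟨i, hi⟩ := one_window h' 0 n n0 nk
      rw [← hi]
      exact H2 i (by simp [h0, win]) n
    · obtain ⟨i', hi'⟩ := one_window h i₀ l h0 hlk
      refine ⟨i', fun n hn => ?_⟩
      rcases Nat.eq_zero_or_pos n with n0 | n0
      · simp [n0, win]
      rcases hn.eq_or_lt with nk | nk
      · rw [nk, win_full, win_full, total_eq h]
      rcases lt_trichotomy n l with c | c | c
      · obtain ⟨i, a1, a2⟩ := two_windows h' i' n l n0 c hlk
        rw [← a1]
        exact H2 i (by rw [a2, hi']) n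
      · rw [c, hi']
      · obtain ⟨i, a1, a2⟩ := two_windows h' i' l n h0 c nk
        rw [← a2]
        exact H2 i (by rw [a1, hi']) n
  obtain ⟨i', hi'⟩ := key
  refine ⟨i', fun t => ?_⟩
  have ht := ZMod.val_lt t
  have a1 := hi' t.val ht.le
  have a2 := hi' (t.val + 1) ht
  rw [win_succ, win_succ, a1, ZMod.natCast_zmod_val] at a2
  linarith

/-- coprime exponent sum implies the unique window hypothesis -/
theorem unique_window_of_coprime (e : ZMod k → ℤ) (hc : IsCoprime (∑ j, e j) (k : ℤ)) :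
    ∃ (i₀ : ZMod k) (l₀ : ℕ), ∀ i, win e i l₀ = win e i₀ l₀ → ∀ t, e (i + t) = e (i₀ + t) := by
  have inj : Function.Injective (pot e) := by
    intro x y hxy
    have h1 := pot_win e x (y - x).val
    rw [ZMod.natCast_zmod_val, add_sub_cancel, hxy, sub_self] at h1
    have h2 : (k : ℤ) ∣ (∑ j, e j) * ((y - x).val : ℕ) := ⟨win e x (y - x).val, by linarith⟩
    have h3 : (k : ℤ) ∣ ((y - x).val : ℕ) := hc.symm.dvd_of_dvd_mul_left h2
    have h4 : k ∣ (y - x).val := by exact_mod_cast h3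
    have h5 : (y - x).val = 0 := Nat.eq_zero_of_dvd_of_lt h4 (ZMod.val_lt _)
    rw [ZMod.val_eq_zero] at h5
    exact (sub_eq_zero.1 h5).symm
  obtain ⟨a, -, ha⟩ := Finset.exists_min_image univ (pot e) ⟨0, mem_univ _⟩
  obtain ⟨b, -, hb⟩ := Finset.exists_max_image univ (pot e) ⟨0, mem_univ _⟩
  refine ⟨a, (b - a).val, fun i hi t => ?_⟩
  have h1 := pot_win e a (b - a).val
  have h2 := pot_win e i (b - a).val
  rw [hi, ← h1, ZMod.natCast_zmod_val, add_sub_cancel] at h2
  have h3 := ha i (mem_univ _)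
  have h4 := hb (i + (b - a)) (mem_univ _)
  have : i = a := inj (by linarith)
  rw [this]

end

lemma card_eq_of_same {k k' : ℕ} [NeZero k] [NeZero k'] {e : ZMod k → ℤ} {s : ZMod k → Fin 3}
    {e' : ZMod k' → ℤ} {s' : ZMod k' → Fin 3} (h : Same e s e' s') : k = k' := by
  have := h (fun _ => 0) (fun _ _ => 1)
  simpa [ZMod.card] using this

end Pool.Agent.Work.MP_c2f093_al
end

-- merged part: Pool.Agent.Work.MP_c2f093_al.Main
section
/-!
Words in which the second generator occurs only with positive exponent.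
-/

namespace Pool.Agent.Work.MP_c2f093_al

open Finset Matrix

/-- the word a^(e 0) b a^(e 1) b ... a^(e (k-1)) b -/
def word (k : ℕ) (e : ZMod k → ℤ) : F2 :=
  ((List.range k).map fun j : ℕ => FreeGroup.of 0 ^ e (j : ZMod k) * FreeGroup.of 1).prod

def wordL (E : List ℤ) : F2 := (E.map fun n => FreeGroup.of 0 ^ n * FreeGroup.of 1).prod

def NoInv (g : F2) : Prop := ∃ L, FreeGroup.mk L = g ∧ ((1 : Fin 2), false) ∉ L

lemma NoInv.mul {g h : F2} (hg : NoInv g) (hh : NoInv h) : NoInv (g * h) := by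
  obtain ⟨L, rfl, a⟩ := hg
  obtain ⟨M, rfl, b⟩ := hh
  exact ⟨L ++ M, by simp, by simp [a, b]⟩

lemma NoInv.one : NoInv 1 := ⟨[], rfl, by simp⟩

lemma NoInv.zpow (n : ℤ) : NoInv (FreeGroup.of 0 ^ n) := by
  induction n using Int.induction_on with
  | zero => simpa using NoInv.one
  | succ n ih => rw [_root_.zpow_add_one]; exact ih.mul ⟨[(0, true)], rfl, by simp⟩
  | pred n ih => rw [_root_.zpow_sub_one]; exact ih.mul ⟨[(0, false)], rfl, by simp⟩

lemma noInv_word (k : ℕ) (e : ZMod k → ℤ) : NoInv (word k e) := by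
  unfold word
  apply List.prod_induction NoInv (fun _ _ => NoInv.mul) NoInv.one
  intro x hx
  obtain ⟨j, -, rfl⟩ := List.mem_map.1 hx
  exact (NoInv.zpow _).mul ⟨[(1, true)], rfl, by simp⟩

lemma exists_wordL (L : List (Fin 2 × Bool)) (h : ((1 : Fin 2), false) ∉ L) :
    ∃ (E : List ℤ) (r : ℤ), FreeGroup.mk L = wordL E * FreeGroup.of 0 ^ r := by
  induction L using List.reverseRecOn with
  | nil => exact ⟨[], 0, by simp [wordL]; rfl⟩
  | append_singleton L c ih =>
    simp only [List.mem_append, List.mem_singleton, not_or] at h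
    obtain ⟨E, r, e⟩ := ih h.1
    have h2 : FreeGroup.mk (L ++ [c]) = FreeGroup.mk L * FreeGroup.mk [c] := by simp
    rw [h2, e]
    obtain ⟨c1, c2⟩ := c
    fin_cases c1 <;> cases c2
    · exact ⟨E, r - 1, by rw [_root_.zpow_sub_one, mul_assoc]; rfl⟩
    · exact ⟨E, r + 1, by rw [_root_.zpow_add_one, mul_assoc]; rfl⟩
    · exact absurd rfl h.2
    · refine ⟨E ++ [r], 0, ?_⟩
      simp only [wordL, List.map_append, List.prod_append, List.map_cons, List.map_nil,
        List.prod_cons, List.prod_nil, mul_one, zpow_zero, mul_assoc]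
      rfl

lemma wordL_eq_word (E : List ℤ) (hE : E ≠ []) :
    ∃ (k : ℕ) (_ : 0 < k) (e : ZMod k → ℤ), wordL E = word k e := by
  have hk : 0 < E.length := List.length_pos_iff.2 hE
  refine ⟨E.length, hk, fun j => E.getD j.val 0, ?_⟩
  unfold wordL word
  congr 1
  apply List.ext_getElem
  · simp
  · intro i h1 h2
    have hi : i < E.length := by simpa using h1
    simp [Nat.mod_eq_of_lt hi, hi]

lemma conj_form (L : List (Fin 2 × Bool)) (h : ((1 : Fin 2), false) ∉ L) :
    (∃ r : ℤ, FreeGroup.mk L = FreeGroup.of 0 ^ r) ∨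
    ∃ (k : ℕ) (_ : 0 < k) (e : ZMod k → ℤ), IsConj (FreeGroup.mk L) (word k e) := by
  obtain ⟨E, r, e⟩ := exists_wordL L h
  cases E with
  | nil => exact Or.inl ⟨r, by simpa [wordL] using e⟩
  | cons n E =>
    right
    obtain ⟨k, hk, e', he'⟩ := wordL_eq_word ((r + n) :: E) (by simp)
    refine ⟨k, hk, e', ?_⟩
    rw [← he', e]
    refine isConj_iff.2 ⟨FreeGroup.of 0 ^ r, ?_⟩
    simp only [wordL, List.map_cons, List.prod_cons, _root_.zpow_add]
    group

lemma word_shift (k : ℕ) (e : ZMod k → ℤ) : IsConj (word k e) (word k fun t => e (1 + t)) := by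
  cases k with
  | zero => simp [word]
  | succ m =>
    unfold word
    have h1 : (List.range (m+1)).map (fun j : ℕ =>
        (FreeGroup.of 0 ^ e (j : ZMod (m+1)) * FreeGroup.of 1 : F2)) =
        (FreeGroup.of 0 ^ e 0 * FreeGroup.of 1) :: (List.range m).map (fun j : ℕ =>
        (FreeGroup.of 0 ^ e (1 + (j : ZMod (m+1))) * FreeGroup.of 1 : F2)) := by
      rw [List.range_succ_eq_map]
      simp [add_comm]
    have h2 : (1 : ZMod (m+1)) + (m : ℕ) = 0 := by
      have : ((m + 1 : ℕ) : ZMod (m+1)) = 0 := ZMod.natCast_self _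
      push_cast at this
      rw [add_comm (1 : ZMod (m+1)), this]
    rw [h1, List.range_succ, List.map_append, List.prod_append, List.prod_cons]
    simp only [List.map_cons, List.map_nil, List.prod_cons, List.prod_nil, mul_one, h2]
    refine isConj_iff.2 ⟨(FreeGroup.of 0 ^ e 0 * FreeGroup.of 1)⁻¹, ?_⟩
    group

lemma word_rotate (k : ℕ) [NeZero k] (e : ZMod k → ℤ) (i : ZMod k) :
    IsConj (word k e) (word k fun t => e (i + t)) := by
  obtain ⟨n, rfl⟩ : ∃ n : ℕ, (n : ZMod k) = i := ⟨i.val, ZMod.natCast_zmod_val i⟩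
  induction n with
  | zero => simpa using IsConj.refl (word k e)
  | succ n ih =>
    refine ih.trans ?_
    have := word_shift k (fun t => e (n + t))
    simpa [add_assoc] using this

/-- torus of parameters -/
abbrev Tor := (Fin 3 → ℂˣ) × (Fin 3 → Fin 3 → ℂˣ)

/-- character attached to a closed walk -/
noncomputable def walkChar {k : ℕ} [NeZero k] (e : ZMod k → ℤ) (s : ZMod k → Fin 3) : Tor →* ℂ where
  toFun τ := ∏ j, (((τ.1 (s j)) ^ e j * τ.2 (s j) (s (j+1)) : ℂˣ) : ℂ)
  map_one' := by simp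
  map_mul' x y := by
    rw [← Finset.prod_mul_distrib]
    refine Finset.prod_congr rfl fun j _ => ?_
    simp only [Prod.fst_mul, Pi.mul_apply, Prod.snd_mul, mul_zpow, Units.val_mul]
    ring

lemma same_of_walkChar {k k' : ℕ} [NeZero k] [NeZero k'] {e : ZMod k → ℤ} {s : ZMod k → Fin 3}
    {e' : ZMod k' → ℤ} {s' : ZMod k' → Fin 3} (h : walkChar e s = walkChar e' s') :
    Same e s e' s' := by
  intro g f
  let two : ℂˣ := Units.mk0 2 two_ne_zero
  have key : ∀ {m : ℕ} [NeZero m] (e : ZMod m → ℤ) (s : ZMod m → Fin 3),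
      walkChar e s (fun x => two ^ g x, fun x y => two ^ f x y)
        = (2 : ℂ) ^ ∑ j, (e j * g (s j) + f (s j) (s (j+1))) := by
    intro m _ e s
    simp only [walkChar, MonoidHom.coe_mk, OneHom.coe_mk]
    rw [← Units.coe_prod]
    have : ∏ j, ((two ^ g (s j)) ^ e j * two ^ f (s j) (s (j+1)))
        = two ^ ∑ j, (e j * g (s j) + f (s j) (s (j+1))) := by
      have h0 : ∀ (t : Finset (ZMod m)) (n : ZMod m → ℤ), ∏ j ∈ t, two ^ n j = two ^ ∑ j ∈ t, n j := by
        intro t n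
        induction t using Finset.induction_on with
        | empty => simp
        | insert a t ha ih => rw [Finset.prod_insert ha, Finset.sum_insert ha, ih, _root_.zpow_add]
      rw [← h0]
      refine Finset.prod_congr rfl fun j _ => ?_
      rw [← _root_.zpow_mul, ← _root_.zpow_add, mul_comm (g _)]
    rw [this]
    simp [two]
  have h1 := DFunLike.congr_fun h (fun x => two ^ g x, fun x y => two ^ f x y)
  rw [key, key] at h1
  have h2 := congrArg norm h1
  simp only [norm_zpow, Complex.norm_ofNat] at h2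
  exact zpow_right_injective₀ (by norm_num) (by norm_num) h2

/-- diagonal unit -/
noncomputable def dU : (Fin 3 → ℂˣ) →* M3ˣ :=
  (Units.map ((Matrix.diagonalRingHom (Fin 3) ℂ).toMonoidHom)).comp
    (MulEquiv.piUnits.symm.toMonoidHom)

lemma dU_val (x : Fin 3 → ℂˣ) : (dU x : M3) = Matrix.diagonal fun i => (x i : ℂ) := rfl

/-- the walk sum -/
noncomputable def walkSum {k : ℕ} [NeZero k] (e : ZMod k → ℤ) (x : Fin 3 → ℂˣ) (B : M3) : ℂ :=
  ∑ s : ZMod k → Fin 3, ∏ j, (((x (s j)) ^ e j : ℂˣ) : ℂ) * B (s j) (s (j+1))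

lemma trace_word {k : ℕ} [NeZero k] (e : ZMod k → ℤ) (x : Fin 3 → ℂˣ) (B : M3ˣ) :
    (((Units.coeHom M3).comp (FreeGroup.lift ![dU x, B])) (word k e)).trace = walkSum e x B := by
  unfold word walkSum
  rw [map_list_prod, List.map_map]
  have := trace_range_prod k (fun j => ((dU (x ^ e j) : M3ˣ) : M3) * (B : M3))
  simp only [dU_val, Matrix.diagonal_mul, Pi.pow_apply] at this
  rw [← this]
  congr 2
  apply List.map_congr_left
  intro j _
  simp only [Function.comp_apply, MonoidHom.comp_apply, map_mul, map_zpow, FreeGroup.lift_apply_of,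
    Matrix.cons_val_zero, Matrix.cons_val_one, Units.coeHom_apply]
  rw [← map_zpow, dU_val]
  rfl

lemma walkSum_cont {k : ℕ} [NeZero k] (e : ZMod k → ℤ) (x : Fin 3 → ℂˣ) :
    Continuous fun B : M3 => walkSum e x B := by
  unfold walkSum
  fun_prop

lemma ext_units {f g : M3 → ℂ} (hf : Continuous f) (hg : Continuous g)
    (h : ∀ B : M3ˣ, f B = g B) (B : M3) : f B = g B := by
  have hfin : (spectrum ℂ (-B)).Finite := Matrix.finite_spectrum _
  have hd : Dense (spectrum ℂ (-B))ᶜ := hfin.countable.dense_compl ℂ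
  have hc : Continuous fun t : ℂ => algebraMap ℂ M3 t - (-B) :=
    (continuous_algebraMap ℂ M3).sub continuous_const
  have := Continuous.ext_on hd (hf.comp hc) (hg.comp hc) (by
    intro t ht
    have hu : IsUnit (algebraMap ℂ M3 t - (-B)) := by
      simpa [spectrum.mem_iff] using ht
    obtain ⟨U, hU⟩ := hu
    simp only [Function.comp_apply, ← hU, h])
  simpa using congrFun this 0

lemma walkSum_eq_sum {k : ℕ} [NeZero k] (e : ZMod k → ℤ) (τ : Tor) :
    walkSum e τ.1 (Matrix.of fun i j => (τ.2 i j : ℂ)) = ∑ s, walkChar e s τ := by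
  simp [walkSum, walkChar]

lemma sum_walkChar_eq {k k' : ℕ} [NeZero k] [NeZero k'] {e : ZMod k → ℤ} {e' : ZMod k' → ℤ}
    (h : TE (word k e) (word k' e')) (τ : Tor) :
    ∑ s, walkChar e s τ = ∑ s, walkChar e' s τ := by
  rw [← walkSum_eq_sum, ← walkSum_eq_sum]
  apply ext_units (walkSum_cont e τ.1) (walkSum_cont e' τ.1)
  intro B
  rw [← trace_word, ← trace_word]
  exact h _

lemma exists_same {k k' : ℕ} [NeZero k] [NeZero k'] {e : ZMod k → ℤ} {e' : ZMod k' → ℤ}
    (h : TE (word k e) (word k' e')) (s : ZMod k → Fin 3) : ∃ s', Same e s e' s' := by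
  obtain ⟨s', hs'⟩ := exists_eq_of_sum_eq _ _ (sum_walkChar_eq h) s
  exact ⟨s', same_of_walkChar hs'.symm⟩

lemma not_te_pow {k : ℕ} [NeZero k] (e : ZMod k → ℤ) (r : ℤ) :
    ¬ TE (word k e) (FreeGroup.of 0 ^ r) := by
  intro h
  have h1 : ∀ B : M3, walkSum e 1 B = 3 := by
    apply ext_units (walkSum_cont e 1) continuous_const
    intro B
    rw [← trace_word, h]
    simp
  have h2 := h1 0
  simp [walkSum, ZMod.card, NeZero.ne k] at h2

/-- any word trace equivalent to a `word` is conjugate to a `word` of the same length -/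
theorem exists_word_of_te {k : ℕ} [NeZero k] (e : ZMod k → ℤ) (v : F2) (h : TE (word k e) v) :
    ∃ e' : ZMod k → ℤ, IsConj v (word k e') := by
  obtain ⟨Lu, hLu, hu⟩ := noInv_word k e
  set Lv := FreeGroup.reduceCyclically v.toWord with hLv
  have hred : FreeGroup.IsCyclicallyReduced Lv :=
    FreeGroup.reduceCyclically.isCyclicallyReduced FreeGroup.isReduced_toWord
  have hconj : IsConj (FreeGroup.mk Lv) v := by
    refine isConj_iff.2 ⟨FreeGroup.mk (FreeGroup.reduceCyclically.conjugator v.toWord), ?_⟩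
    rw [FreeGroup.inv_mk, FreeGroup.mul_mk, FreeGroup.mul_mk, hLv,
      FreeGroup.reduceCyclically.conj_conjugator_reduceCyclically, FreeGroup.mk_toWord]
  have h1 : TE (word k e) (FreeGroup.mk Lv) := h.trans (TE.of_isConj hconj.symm)
  have h2 := no_inv_letter Lu Lv hu hred (hLu ▸ h1)
  rcases conj_form Lv h2 with ⟨r, hr⟩ | ⟨k', hk', e', he'⟩
  · exact absurd (hr ▸ h1) (not_te_pow e r)
  · have : NeZero k' := ⟨hk'.ne'⟩
    have h3 : TE (word k e) (word k' e') := h1.trans (TE.of_isConj he')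
    obtain ⟨s', hs'⟩ := exists_same h3 (fun _ => 0)
    obtain rfl := card_eq_of_same hs'
    exact ⟨e', hconj.symm.trans he'⟩

theorem isConj_of_te {k : ℕ} [NeZero k] (e : ZMod k → ℤ) (i₀ : ZMod k) (l₀ : ℕ)
    (H : ∀ i, win e i l₀ = win e i₀ l₀ → ∀ t, e (i + t) = e (i₀ + t))
    (v : F2) (h : TE (word k e) v) : IsConj (word k e) v := by
  obtain ⟨e', he'⟩ := exists_word_of_te e v h
  have h3 : TE (word k e) (word k e') := h.trans (TE.of_isConj he')
  obtain ⟨i', hi'⟩ := rotation_of_same (exists_same h3) (exists_same h3.symm) i₀ l₀ H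
  have a1 := word_rotate k e i₀
  have a2 := word_rotate k e' i'
  rw [funext hi'] at a2
  exact (a1.trans a2.symm).trans he'.symm

end Pool.Agent.Work.MP_c2f093_al
end
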